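import Pool.Agent.W443.J6.Stms

/-!
Project J6: passage to the local problem.
-/

set_option autoImplicit false

open MvPolynomial Pool.Agent.H938R2.JC Pool.Agent.W443.J5 Pool.Agent.W443.J6

namespace Pool.Agent.W45.J6

universe u

section

variable {k : Type u} [Field k]

/-- `x ^ m` is mapped to `X 0 ^ (D - 3 m 0 + m 1) * X 1 ^ (m 1)` -/
noncomputable def T (D : ℕ) : MvPolynomial (Fin 2) k →ₗ[k] MvPolynomial (Fin 2) k :=
  (MvPolynomial.basisMonomials (Fin 2) k).constr k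
    (fun m => monomial (e (D + m 1 - 3 * m 0) (m 1)) (1 : k))

lemma T_monomial (D : ℕ) (m : Fin 2 →₀ ℕ) (a : k) :
    T D (monomial m a) = monomial (e (D + m 1 - 3 * m 0) (m 1)) a := by
  have h1 : (monomial m a : MvPolynomial (Fin 2) k) = a • monomial m (1 : k) := by
    rw [smul_monomial, smul_eq_mul, mul_one]
  have h2 : (monomial m (1 : k)) = MvPolynomial.basisMonomials (Fin 2) k m := by
    rw [coe_basisMonomials]
  rw [h1, map_smul, h2]
  unfold T
  rw [Module.Basis.constr_basis, smul_monomial, smul_eq_mul, mul_one]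

lemma ind (f : MvPolynomial (Fin 2) k) (P : MvPolynomial (Fin 2) k → Prop) (h0 : P 0)
    (ha : ∀ f g, P f → P g → P (f + g)) (hm : ∀ m a, coeff m f ≠ 0 → P (monomial m a)) : P f := by
  rw [← support_sum_monomial_coeff f]
  exact Finset.sum_induction _ P ha h0 (fun m hmem => hm m _ (mem_support_iff.1 hmem))

lemma X1_BB (D E : ℤ) (F G : MvPolynomial (Fin 2) k) : X 1 * BB D E F G =
    (X 0 * pderiv 0 F) * (X 1 * pderiv 1 G) - (X 1 * pderiv 1 F) * (X 0 * pderiv 0 G) -
      C (D : k) * F * (X 1 * pderiv 1 G) + C (E : k) * G * (X 1 * pderiv 1 F) := by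
  unfold BB J
  ring

lemma XXJ (F G : MvPolynomial (Fin 2) k) : X 0 * X 1 * J F G =
    (X 0 * pderiv 0 F) * (X 1 * pderiv 1 G) - (X 1 * pderiv 1 F) * (X 0 * pderiv 0 G) := by
  unfold J
  ring

lemma e_add (i j i' j' : ℕ) : e i j + e i' j' = e (i + i') (j + j') := by
  rw [ext_iff']
  simp

lemma mono_id (a b : ℕ) (m n : Fin 2 →₀ ℕ) (hm : 3 * m 0 ≤ 3 * a + m 1)
    (hn : 3 * n 0 ≤ 3 * b + n 1) (c d : k) :
    X 1 * BB (3 * a) (3 * b) (T (3 * a) (monomial m c)) (T (3 * b) (monomial n d)) =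
      C (-3) * T (3 * a + 3 * b) (X 0 * X 1 * J (monomial m c) (monomial n d)) := by
  obtain ⟨A, hA⟩ : ∃ A, A = 3 * a + m 1 - 3 * m 0 := ⟨_, rfl⟩
  obtain ⟨B, hB⟩ : ∃ B, B = 3 * b + n 1 - 3 * n 0 := ⟨_, rfl⟩
  have hA' : A + 3 * m 0 = 3 * a + m 1 := by omega
  have hB' : B + 3 * n 0 = 3 * b + n 1 := by omega
  have hAk : (A : k) = 3 * a + (m 1 : ℕ) - 3 * (m 0 : ℕ) := by
    have := congrArg (Nat.cast : ℕ → k) hA'
    push_cast at this
    linear_combination this
  have hBk : (B : k) = 3 * b + (n 1 : ℕ) - 3 * (n 0 : ℕ) := by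
    have := congrArg (Nat.cast : ℕ → k) hB'
    push_cast at this
    linear_combination this
  have hns : ∀ (r : ℕ) (u : Fin 2 →₀ ℕ) (x : k), r • monomial u x = monomial u ((r : k) * x) := by
    intro r u x
    rw [nsmul_eq_mul, ← C_eq_coe_nat, C_mul_monomial]
  rw [T_monomial, T_monomial, ← hA, ← hB, X1_BB, XXJ]
  simp only [X_mul_pderiv_monomial, e_zero, e_one, hns, monomial_mul, C_mul_monomial, e_add,
    ← map_sub, ← map_add, T_monomial]
  have h1 : 3 * a + 3 * b + (m + n) 1 - 3 * (m + n) 0 = A + B := by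
    simp only [Finsupp.add_apply]
    omega
  rw [h1]
  have h2 : (m + n) 1 = m 1 + n 1 := rfl
  rw [h2, add_comm B A, add_comm (n 1) (m 1), ← map_add]
  congr 1
  push_cast
  rw [hAk, hBk]
  ring

lemma BB_add_left (D E : ℤ) (F F' G : MvPolynomial (Fin 2) k) :
    BB D E (F + F') G = BB D E F G + BB D E F' G := by
  unfold BB J
  simp only [map_add]
  ring

lemma BB_add_right (D E : ℤ) (F G G' : MvPolynomial (Fin 2) k) :
    BB D E F (G + G') = BB D E F G + BB D E F G' := by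
  unfold BB J
  simp only [map_add]
  ring

lemma J_add_left (F F' G : MvPolynomial (Fin 2) k) : J (F + F') G = J F G + J F' G := by
  unfold J
  simp only [map_add]
  ring

lemma J_add_right (F G G' : MvPolynomial (Fin 2) k) : J F (G + G') = J F G + J F G' := by
  unfold J
  simp only [map_add]
  ring

lemma BB_T (a b : ℕ) (f g : MvPolynomial (Fin 2) k)
    (hf : ∀ m, coeff m f ≠ 0 → 3 * m 0 ≤ 3 * a + m 1)
    (hg : ∀ m, coeff m g ≠ 0 → 3 * m 0 ≤ 3 * b + m 1) :
    X 1 * BB (3 * a) (3 * b) (T (3 * a) f) (T (3 * b) g) =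
      C (-3) * T (3 * a + 3 * b) (X 0 * X 1 * J f g) := by
  refine ind f (fun f => X 1 * BB (3 * a) (3 * b) (T (3 * a) f) (T (3 * b) g) =
      C (-3) * T (3 * a + 3 * b) (X 0 * X 1 * J f g)) ?_ ?_ ?_
  · simp [BB, J]
  · intro f f' h h'
    rw [map_add, BB_add_left, J_add_left, mul_add, mul_add, map_add, mul_add, h, h']
  · intro m c hm
    refine ind g (fun g => X 1 * BB (3 * a) (3 * b) (T (3 * a) (monomial m c)) (T (3 * b) g) =
        C (-3) * T (3 * a + 3 * b) (X 0 * X 1 * J (monomial m c) g)) ?_ ?_ ?_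
    · simp [BB, J]
    · intro g g' h h'
      rw [map_add, BB_add_right, J_add_right, mul_add, mul_add, map_add, mul_add, h, h']
    · intro n d hn
      exact mono_id a b m n (hf m hm) (hg n hn) c d

/-- the shift -/
noncomputable def sh (c0 : k) : MvPolynomial (Fin 2) k →ₐ[k] MvPolynomial (Fin 2) k :=
  aeval ![X 0, X 1 + C c0]

lemma pd_sh (c0 : k) (f : MvPolynomial (Fin 2) k) : pderiv 1 (sh c0 f) = sh c0 (pderiv 1 f) := by
  unfold sh
  rw [H922R2.deriv_aeval (pderiv 1) ![X 0, X 1 + C c0] f]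
  simp [Fin.sum_univ_two, pderiv_X, Pi.single_apply]

lemma J_sh (c0 : k) (f g : MvPolynomial (Fin 2) k) : J (sh c0 f) (sh c0 g) = sh c0 (J f g) := by
  unfold sh
  rw [J_aeval]
  have : J (![X 0, X 1 + C c0] 0) (![X 0, X 1 + C c0] 1) = (1 : MvPolynomial (Fin 2) k) := by
    simp [J, pderiv_X, Pi.single_apply]
  rw [this, mul_one]

lemma BB_sh (D E : ℤ) (c0 : k) (F G : MvPolynomial (Fin 2) k) :
    BB D E (sh c0 F) (sh c0 G) = sh c0 (BB D E F G) := by
  have h0 : sh c0 (X 0) = X 0 := by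
    unfold sh
    simp
  unfold BB
  rw [J_sh, pd_sh, pd_sh, map_add, map_sub]
  simp only [map_mul, h0, algHom_C, algebraMap_eq]

lemma ev0_sh (c0 : k) (f : MvPolynomial (Fin 2) k) :
    ev0 (sh c0 f) = (ev0 f).comp (Polynomial.X + Polynomial.C c0) := by
  have h1 : ∀ f : MvPolynomial (Fin 2) k, (ev0 f).comp (Polynomial.X + Polynomial.C c0) =
      (Polynomial.aeval (Polynomial.X + Polynomial.C c0)) (ev0 f) := by
    intro f
    rw [Polynomial.aeval_def, Polynomial.comp, Polynomial.algebraMap_eq]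
  rw [h1]
  have h2 : ((aeval ![0, Polynomial.X] : MvPolynomial (Fin 2) k →ₐ[k] Polynomial k).comp (sh c0)) =
      ((Polynomial.aeval (Polynomial.X + Polynomial.C c0) : Polynomial k →ₐ[k] Polynomial k)).comp
        (aeval ![0, Polynomial.X] : MvPolynomial (Fin 2) k →ₐ[k] Polynomial k) := by
    apply MvPolynomial.algHom_ext
    intro i
    unfold sh
    fin_cases i <;> simp
  exact DFunLike.congr_fun h2 f

lemma ev0_T (a : ℕ) (f : MvPolynomial (Fin 2) k)
    (hf : ∀ m, coeff m f ≠ 0 → 3 * m 0 ≤ 3 * a + m 1) :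
    ev0 (T (3 * a) f) = dh 3 (-1) (3 * a) f := by
  have h1 : T (3 * a) f = ∑ m ∈ f.support,
      monomial (e (3 * a + m 1 - 3 * m 0) (m 1)) (coeff m f) := by
    conv_lhs => rw [← support_sum_monomial_coeff f]
    rw [map_sum]
    exact Finset.sum_congr rfl fun m _ => T_monomial _ _ _
  unfold ev0 dh part
  rw [h1, map_sum, map_sum, Finset.sum_filter]
  refine Finset.sum_congr rfl fun m hm => ?_
  have hm' := hf m (mem_support_iff.1 hm)
  rw [aeval_monomial, Finsupp.prod_fintype _ _ (by simp), Fin.prod_univ_two]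
  simp only [Matrix.cons_val_zero, Matrix.cons_val_one, e_zero, e_one]
  split_ifs with h
  · have h2 : 3 * a + m 1 - 3 * m 0 = 0 := by omega
    rw [h2, pow_zero, one_mul, aeval_monomial, Finsupp.prod_fintype _ _ (by simp),
      Fin.prod_univ_two]
    simp
  · have h2 : 3 * a + m 1 - 3 * m 0 ≠ 0 := by omega
    rw [zero_pow h2, zero_mul, mul_zero]

end

theorem fh : S_FH.{u} := by
  intro k _ _ _ f g a b c κ κ' t ha hb hc hJ hκ hκ' ht hTf hTg hpf hpg
  obtain ⟨c0, hc0⟩ : ∃ c0 : k, c0 ^ 3 = t := IsAlgClosed.exists_pow_nat_eq t (by norm_num)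
  have hc00 : c0 ≠ 0 := by
    rintro rfl
    apply ht
    rw [← hc0]
    norm_num
  have h3 : (3 : k) ≠ 0 := by norm_num
  have hf : ∀ m, coeff m f ≠ 0 → 3 * m 0 ≤ 3 * a + m 1 := by
    intro m hm
    have := hTf.1 m hm
    omega
  have hg : ∀ m, coeff m g ≠ 0 → 3 * m 0 ≤ 3 * b + m 1 := by
    intro m hm
    have := hTg.1 m hm
    omega
  have hBB : BB (3 * a) (3 * b) (T (3 * a) f) (T (3 * b) g) =
      C (-3 * c) * X 0 ^ (3 * (a + b) - 2) := by
    have h1 := BB_T a b f g hf hg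
    rw [hJ] at h1
    have h2 : (X 0 * X 1 * C c : MvPolynomial (Fin 2) k) = monomial (e 1 1) c := by
      rw [e, X, X, monomial_mul, mul_comm, C_mul_monomial]; simp
    rw [h2, T_monomial, e_zero, e_one, C_mul_monomial] at h1
    refine mul_left_cancel₀ (X_ne_zero (R := k) (1 : Fin 2)) (h1.trans ?_)
    have h4 : 3 * a + 3 * b + 1 - 3 * 1 = 3 * (a + b) - 2 := by omega
    rw [h4, X_pow_eq_monomial, C_mul_monomial, X, monomial_mul, mul_one, one_mul]
    congr 1
    rw [e, add_comm]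
  have hsh0 : sh c0 (X 0) = (X 0 : MvPolynomial (Fin 2) k) := by
    unfold sh
    simp
  have hev : ∀ (r : ℕ) (x : k), (Polynomial.C x * (Polynomial.X ^ 3 - Polynomial.C t) ^ (2 * r)).comp
      (Polynomial.X + Polynomial.C c0) = Polynomial.X ^ (2 * r) *
        (Polynomial.C x * (Polynomial.X ^ 2 + Polynomial.C (3 * c0) * Polynomial.X +
          Polynomial.C (3 * c0 ^ 2)) ^ (2 * r)) := by
    intro r x
    simp only [Polynomial.mul_comp, Polynomial.pow_comp, Polynomial.sub_comp, Polynomial.C_comp,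
      Polynomial.X_comp]
    have h5 : (Polynomial.X + Polynomial.C c0) ^ 3 - Polynomial.C t =
        Polynomial.X * (Polynomial.X ^ 2 + Polynomial.C (3 * c0) * Polynomial.X +
          Polynomial.C (3 * c0 ^ 2)) := by
      rw [← hc0]
      simp only [map_mul, map_pow, map_ofNat]
      ring
    rw [h5, mul_pow]
    ring
  have hdh : ∀ (r : ℕ) (x : k) (p : MvPolynomial (Fin 2) k),
      part 3 (-1) (3 * r) p = C x * X 0 ^ r * (X 0 * X 1 ^ 3 - C t) ^ (2 * r) →
      dh 3 (-1) (3 * r) p = Polynomial.C x * (Polynomial.X ^ 3 - Polynomial.C t) ^ (2 * r) := by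
    intro r x p hp
    unfold dh
    rw [hp]
    simp
  have hcoef : ∀ (r : ℕ) (x : k), x ≠ 0 → (Polynomial.C x * (Polynomial.X ^ 2 +
      Polynomial.C (3 * c0) * Polynomial.X + Polynomial.C (3 * c0 ^ 2)) ^ (2 * r)).coeff 0 ≠ 0 := by
    intro r x hx
    rw [Polynomial.coeff_zero_eq_eval_zero]
    simp only [Polynomial.eval_mul, Polynomial.eval_C, Polynomial.eval_pow, Polynomial.eval_add,
      Polynomial.eval_X]
    refine mul_ne_zero hx (pow_ne_zero _ ?_)
    have : (0 : k) ^ 2 + 3 * c0 * 0 + 3 * c0 ^ 2 = 3 * c0 ^ 2 := by ring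
    rw [this]
    exact mul_ne_zero h3 (pow_ne_zero _ hc00)
  refine ⟨sh c0 (T (3 * a) f), sh c0 (T (3 * b) g), -3 * c, _, _,
    mul_ne_zero (neg_ne_zero.2 h3) hc, ?_, hcoef a κ hκ, hcoef b κ' hκ', ?_, ?_⟩
  · rw [BB_sh, hBB, map_mul, map_pow, hsh0, algHom_C, algebraMap_eq]
  · rw [ev0_sh, ev0_T a f hf, hdh a κ f hpf, hev]
  · rw [ev0_sh, ev0_T b g hg, hdh b κ' g hpg, hev]

end Pool.Agent.W45.J6
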